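import Mathlib

/-!
# Subspace lattices over division rings and over fields

Let `F` be the center of the division ring `D`, a field.  Every `D`-subspace of a `D`-vector space `V`
is an `F`-subspace, and intersections and sums are formed in the same way.  So the lattice of
`D`-subspaces of `V` is a sublattice of the lattice of `F`-subspaces of `V`.
-/

set_option autoImplicit false

universe u v w

namespace Pool.Agent.Results.MP_332034_al.RestrictScalars

/-- The lattice `L` embeds into the lattice `M`: there is an injective map which preserves binary
meets and binary joins (bounds need not be preserved). -/
def Embeds (L : Type*) (M : Type*) [Lattice L] [Lattice M] : Prop :=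
  ∃ f : L → M, Function.Injective f ∧ (∀ a b, f (a ⊓ b) = f a ⊓ f b) ∧
    (∀ a b, f (a ⊔ b) = f a ⊔ f b)

/-- Every lattice (finite or not) which embeds into the lattice of subspaces of a left vector space
`V` over a division ring `D` embeds into the lattice of subspaces of a vector space over a field,
namely of `V` regarded as a vector space over the center of `D`. -/
theorem result (L : Type u) [Lattice L] (D : Type v) [DivisionRing D] (V : Type w)
    [AddCommGroup V] [Module D V] (h : Embeds L (Submodule D V)) :
    Embeds L (Submodule (Subring.center D) V) ∧
    ∃ (F : Type v) (_ : Field F) (W : Type w) (_ : AddCommGroup W) (_ : Module F W),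
      Embeds L (Submodule F W) := by
  have key : Embeds L (Submodule (Subring.center D) V) := by
    obtain ⟨f, hf, hinf, hsup⟩ := h
    refine ⟨fun a => (f a).restrictScalars (Subring.center D), ?_, ?_, ?_⟩
    · intro a b hab
      exact hf (Submodule.restrictScalars_injective (Subring.center D) D V hab)
    · intro a b
      simp only [hinf]
      rfl
    · intro a b
      simp only [hsup]
      exact Submodule.restrictScalars_sup _ _ _
  exact ⟨key, Subring.center D, inferInstance, V, inferInstance, inferInstance, key⟩

end Pool.Agent.Results.MP_332034_al.RestrictScalars
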